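import Pool.Agent.Lib.MP_305fdd_al.Su.DivQ.Quat

/-!
# MP_305fdd_al, surface groups, block DIV: elements of trace zero are trivial
-/

set_option autoImplicit false
set_option linter.unusedSectionVars false

namespace Pool.Agent.SuDivQ

open Matrix FrH MvPowerSeries

variable {ι K : Type} [Field K]

section lex

variable [LinearOrder ι] [WellFoundedGT ι]

theorem lex_map (σ : K →+* K) (b : MvPowerSeries ι K) :
    lexOrder (MvPowerSeries.map σ b) = lexOrder b := by
  apply le_antisymm
  · rw [le_lexOrder_iff]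
    intro d hd
    have h1 := coeff_eq_zero_of_lt_lexOrder hd
    rw [coeff_map] at h1
    exact (map_eq_zero σ).1 h1
  · rw [le_lexOrder_iff]
    intro d hd
    rw [coeff_map, coeff_eq_zero_of_lt_lexOrder hd, map_zero]

theorem lex_X (i : ι) : lexOrder (X i : MvPowerSeries ι K) = toLex (Finsupp.single i 1) := by
  classical
  have h0 : (X i : MvPowerSeries ι K) ≠ 0 := by
    intro h
    have := congrArg (coeff (Finsupp.single i 1)) h
    rw [coeff_index_single_self_X, map_zero] at this
    exact one_ne_zero this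
  obtain ⟨d, hd⟩ := exists_finsupp_eq_lexOrder_of_ne_zero h0
  have h1 := coeff_ne_zero_of_lexOrder hd.symm
  rw [coeff_X] at h1
  have h2 : d = Finsupp.single i 1 := by
    by_contra h
    rw [if_neg h] at h1
    exact h1 rfl
  rw [hd, h2]

theorem an_lex (σ : K →+* K) (i : ι) (f b : MvPowerSeries ι K)
    (h : f ^ 2 = X i * b * MvPowerSeries.map σ b) : b = 0 ∧ f = 0 := by
  have hb : b = 0 := by
    by_contra hb
    have hX : (X i : MvPowerSeries ι K) ≠ 0 := by
      intro h
      have := congrArg (coeff (Finsupp.single i 1)) h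
      rw [coeff_index_single_self_X, map_zero] at this
      exact one_ne_zero this
    have hcb : MvPowerSeries.map σ b ≠ 0 := by
      intro h1
      have := lex_map σ b
      rw [h1, lexOrder_zero, eq_comm, lexOrder_eq_top_iff_eq_zero] at this
      exact hb this
    have hf : f ≠ 0 := by
      rintro rfl
      rw [zero_pow two_ne_zero, eq_comm] at h
      exact mul_ne_zero (mul_ne_zero hX hb) hcb h
    obtain ⟨d, hd⟩ := exists_finsupp_eq_lexOrder_of_ne_zero hf
    obtain ⟨e, he⟩ := exists_finsupp_eq_lexOrder_of_ne_zero hb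
    have h1 := congrArg lexOrder h
    rw [pow_two, lexOrder_mul, lexOrder_mul, lexOrder_mul, lex_map, lex_X, hd, he] at h1
    have h2 : (toLex d + toLex d : Lex (ι →₀ ℕ)) =
        toLex (Finsupp.single i 1) + toLex e + toLex e := by
      exact_mod_cast h1
    have h3 : d + d = Finsupp.single i 1 + e + e := h2
    have h4 := DFunLike.congr_fun h3 i
    rw [Finsupp.add_apply, Finsupp.add_apply, Finsupp.add_apply, Finsupp.single_eq_same] at h4
    omega
  refine ⟨hb, ?_⟩
  rw [hb, map_zero, mul_zero] at h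
  exact pow_eq_zero_iff two_ne_zero |>.1 h

end lex

theorem an (σ : K →+* K) (i : ι) (f b : MvPowerSeries ι K) [Finite ι]
    (h : f ^ 2 = X i * b * MvPowerSeries.map σ b) : b = 0 ∧ f = 0 := by
  classical
  let _ : LinearOrder ι := linearOrderOfSTO WellOrderingRel
  have : WellFoundedGT ι := Finite.to_wellFoundedGT
  exact an_lex σ i f b h

/-- trace zero implies trivial -/
theorem eq_one_of_tr [Finite ι] (σ : K →+* K) (i : ι)
    (h : Cj (MvPowerSeries.map (σ := ι) σ) (X i)) (g : SL2 (MvPowerSeries ι K)) (hg : g ∈ UU h)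
    (htr : g 0 0 + g 1 1 = 0) : g = 1 := by
  obtain ⟨h1, h2⟩ := hg
  have hd := det_eq g
  have h3 : (g 0 0 + 1) ^ 2 = X i * (MvPowerSeries.map σ (g 1 0)) *
      MvPowerSeries.map σ (MvPowerSeries.map σ (g 1 0)) := by
    rw [h.cc, ← h2]
    linear_combination g 0 0 * htr - hd + h.two * (1 + g 0 0) - h.two * (1 + g 0 1 * g 1 0)
  obtain ⟨h4, h5⟩ := an σ i _ _ h3
  have h6 : g 1 0 = 0 := by
    rw [← h.cc (g 1 0), h4, map_zero]
  have h7 : g 0 1 = 0 := by rw [h2, h4, mul_zero]
  have h8 : g 0 0 = 1 := by linear_combination h5 - h.two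
  have h9 : g 1 1 = 1 := by rw [h1, h8, map_one]
  refine ext_ent ?_ ?_ ?_ ?_
  · rw [h8, one_ent, if_pos rfl]
  · rw [h7, one_ent, if_neg (by decide)]
  · rw [h6, one_ent, if_neg (by decide)]
  · rw [h9, one_ent, if_pos rfl]

end Pool.Agent.SuDivQ
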