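import Mathlib

/-!
# MP_305fdd_al, surface groups, block DIV: quadratic equations over power series rings, char. two
-/

set_option autoImplicit false
set_option linter.unusedSectionVars false

namespace Pool.Agent.SuDivQ

open MvPowerSeries

variable {ι F : Type} [Field F] [CharP F 2]

/-- Artin–Schreier equations -/
theorem exists_as (θ : MvPowerSeries ι F) (hθ : constantCoeff θ = 0) :
    ∃ v : MvPowerSeries ι F, constantCoeff v = 0 ∧ v + v ^ 2 = θ := by
  let P : PowerSeries F := PowerSeries.X + PowerSeries.X ^ 2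
  have hP : P.constantCoeff = 0 := by simp [P]
  have h1 : PowerSeries.coeff 1 P = 1 := by
    simp [P, PowerSeries.coeff_X_pow]
  have hP1 : IsUnit (PowerSeries.coeff 1 P) := by rw [h1]; exact isUnit_one
  let S : PowerSeries F := P.substInvOfIsUnit hP1
  have hS : P.subst S = PowerSeries.X := PowerSeries.subst_substInvOfIsUnit_right P hP hP1
  have hsS : PowerSeries.HasSubst S := PowerSeries.HasSubst.substInvOfIsUnit P hP1
  have hs : PowerSeries.HasSubst θ := PowerSeries.HasSubst.of_constantCoeff_zero hθ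
  have h2 : S + S ^ 2 = PowerSeries.X := by
    rw [← hS]
    simp only [P]
    have e1 := PowerSeries.subst_add hsS (PowerSeries.X : PowerSeries F) (PowerSeries.X ^ 2)
    rw [e1, PowerSeries.subst_pow hsS, PowerSeries.subst_X hsS]
  refine ⟨S.subst θ, ?_, ?_⟩
  · exact PowerSeries.constantCoeff_subst_eq_zero hθ S
      (PowerSeries.constantCoeff_substInvOfIsUnit P hP1)
  · rw [← PowerSeries.subst_pow hs, ← PowerSeries.subst_add hs, h2, PowerSeries.subst_X hs]

theorem isUnit_of_cc {f : MvPowerSeries ι F} (h : constantCoeff f ≠ 0) : IsUnit f :=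
  MvPowerSeries.isUnit_iff_constantCoeff.2 (isUnit_iff_ne_zero.2 h)

/-- quadratic equations with a unit as linear coefficient -/
theorem exists_root (α β γ : MvPowerSeries ι F) (hα : constantCoeff α ≠ 0)
    (hβ : constantCoeff β ≠ 0) (hγ : constantCoeff γ = 0) :
    ∃ z : MvPowerSeries ι F, constantCoeff z = 0 ∧ α * z ^ 2 + β * z + γ = 0 := by
  obtain ⟨a, ha⟩ := (isUnit_of_cc hα).exists_right_inv
  obtain ⟨b, hb⟩ := (isUnit_of_cc hβ).exists_right_inv
  have h2 : (2 : MvPowerSeries ι F) = 0 := by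
    have h : (C (2 : F) : MvPowerSeries ι F) = 2 := map_ofNat _ 2
    rw [← h, show (2 : F) = 0 from CharTwo.two_eq_zero, map_zero]
  obtain ⟨v, hv0, hv⟩ := exists_as (α * γ * b ^ 2) (by rw [map_mul, map_mul, hγ]; ring)
  refine ⟨β * a * v, by rw [map_mul, hv0, mul_zero], ?_⟩
  have e1 : α * (β * a * v) ^ 2 + β * (β * a * v) + γ =
      β ^ 2 * a * (v + v ^ 2) * 1 + γ + (α * a - 1) * (β ^ 2 * a * v ^ 2) := by ring
  rw [e1, hv, ha, sub_self, zero_mul, add_zero, mul_one]
  have e2 : β ^ 2 * a * (α * γ * b ^ 2) + γ = (α * a) * (β * b) ^ 2 * γ + γ := by ring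
  rw [e2, ha, hb]
  linear_combination γ * h2

/-- uniqueness of the root -/
theorem root_unique {α β γ z z' : MvPowerSeries ι F} (hβ : constantCoeff β ≠ 0)
    (hz : constantCoeff z = 0) (hz' : constantCoeff z' = 0)
    (h : α * z ^ 2 + β * z + γ = 0) (h' : α * z' ^ 2 + β * z' + γ = 0) : z = z' := by
  have h1 : (z - z') * (α * (z + z') + β) = 0 := by linear_combination h - h'
  have h3 : IsUnit (α * (z + z') + β) := by
    refine isUnit_of_cc ?_
    rw [map_add, map_mul, map_add, hz, hz', add_zero, mul_zero, zero_add]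
    exact hβ
  have h4 := (h3.mul_left_eq_zero).1 h1
  exact sub_eq_zero.1 h4

end Pool.Agent.SuDivQ
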