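import Pool.Agent.Lib.MP_305fdd_al.Fr.N.H.Ent

/-!
# MP_305fdd_al, surface groups, block DIV: the norm one group of a quaternion order

`A` is a commutative ring of characteristic two with an involution `c`, `c t = t`.  `UU` is the group
of the matrices `(a, t b; c b, c a)` of determinant one.
-/

set_option autoImplicit false
set_option linter.unusedSectionVars false

namespace Pool.Agent.SuDivQ

open Matrix FrH

open scoped commutatorElement

/-- an involution -/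
structure Cj {A : Type} [CommRing A] (c : A →+* A) (t : A) : Prop where
  cc : ∀ a, c (c a) = a
  ct : c t = t
  two : (2 : A) = 0

variable {A : Type} [CommRing A] {c : A →+* A} {t : A}

/-- the group of the matrices `(a, t b; c b, c a)` -/
def UU (h : Cj c t) : Subgroup (SL2 A) where
  carrier := {g | g 1 1 = c (g 0 0) ∧ g 0 1 = t * c (g 1 0)}
  one_mem' := by
    refine ⟨?_, ?_⟩
    · rw [one_ent, one_ent, if_pos rfl, if_pos rfl, map_one]
    · rw [one_ent, one_ent, if_neg (by decide), if_neg (by decide), map_zero, mul_zero]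
  mul_mem' := by
    rintro g k ⟨h1, h2⟩ ⟨h3, h4⟩
    refine ⟨?_, ?_⟩
    · rw [mul_ent, mul_ent, h1, h3, h4, map_add, map_mul, map_mul, h2, map_mul, h.ct, h.cc]
      ring
    · rw [mul_ent, mul_ent, h1, h3, h4, h2, map_add, map_mul, map_mul, h.cc]
      ring
  inv_mem' := by
    rintro g ⟨h1, h2⟩
    refine ⟨?_, ?_⟩
    · rw [inv_11, inv_00, h1, h.cc]
    · rw [inv_01, inv_10, h2, map_neg]
      ring

theorem mem_UU {h : Cj c t} {g : SL2 A} : g ∈ UU h ↔ g 1 1 = c (g 0 0) ∧ g 0 1 = t * c (g 1 0) :=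
  Iff.rfl

/-- the matrix `(a, t b; c b, c a)` -/
def mkU (c : A →+* A) (t a b : A) (h : a * c a - t * b * c b = 1) : SL2 A :=
  mk4 a (t * b) (c b) (c a) h

theorem mkU_mem (h : Cj c t) (a b : A) (h1 : a * c a - t * b * c b = 1) :
    mkU c t a b h1 ∈ UU h := by
  refine ⟨rfl, ?_⟩
  change t * b = t * c (c b)
  rw [h.cc]

/-- the reduction modulo `t` of the first entry -/
def chiU (h : Cj c t) : UU h →* A ⧸ Ideal.span ({t} : Set A) where
  toFun g := Ideal.Quotient.mk _ (g.1 0 0)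
  map_one' := by
    change Ideal.Quotient.mk _ ((1 : SL2 A) 0 0) = 1
    rw [one_ent, if_pos rfl, map_one]
  map_mul' := by
    rintro ⟨g, hg⟩ ⟨k, hk⟩
    change Ideal.Quotient.mk _ ((g * k) 0 0) = Ideal.Quotient.mk _ (g 0 0) *
      Ideal.Quotient.mk _ (k 0 0)
    rw [← map_mul, Ideal.Quotient.eq, mul_ent, add_sub_cancel_left, hg.2, mul_assoc]
    exact Ideal.mul_mem_right _ _ (Ideal.subset_span rfl)

theorem map_comm_one {G M : Type} [Group G] [CommMonoid M] (f : G →* M) (x y : G) :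
    f ⁅x, y⁆ = 1 := by
  rw [commutatorElement_def, map_mul, map_mul, map_mul, mul_right_comm (f x), ← map_mul,
    mul_inv_cancel, map_one, one_mul, ← map_mul, mul_inv_cancel, map_one]

/-- products of commutators are congruent to one -/
theorem dvd_of_comm (h : Cj c t) {ι : Type} (L : List ι) (x y : ι → SL2 A)
    (hx : ∀ i, x i ∈ UU h) (hy : ∀ i, y i ∈ UU h) :
    (L.map fun i => ⁅x i, y i⁆).prod ∈ UU h ∧
      ∃ μ, (L.map fun i => ⁅x i, y i⁆).prod 0 0 = 1 + t * μ := by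
  let X : ι → UU h := fun i => ⟨x i, hx i⟩
  let Y : ι → UU h := fun i => ⟨y i, hy i⟩
  have h1 : (L.map fun i => ⁅x i, y i⁆).prod = ((L.map fun i => ⁅X i, Y i⁆).prod : UU h).1 := by
    rw [← Subgroup.coe_subtype, map_list_prod, List.map_map]
    rfl
  have h2 : chiU h (L.map fun i => ⁅X i, Y i⁆).prod = 1 := by
    rw [map_list_prod, List.map_map]
    apply List.prod_eq_one
    intro z hz
    rw [List.mem_map] at hz
    obtain ⟨i, -, rfl⟩ := hz
    exact map_comm_one _ _ _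
  refine ⟨h1 ▸ Subtype.property _, ?_⟩
  rw [h1]
  have h3 : Ideal.Quotient.mk (Ideal.span ({t} : Set A))
      (((L.map fun i => ⁅X i, Y i⁆).prod : UU h).1 0 0) = Ideal.Quotient.mk _ 1 := by
    rw [map_one]
    exact h2
  rw [Ideal.Quotient.eq, Ideal.mem_span_singleton] at h3
  obtain ⟨μ, hμ⟩ := h3
  exact ⟨μ, by rw [← hμ]; ring⟩

/-- THE SOLUTION of `[A, B] g = 1`, if `g A` and `A` have the same trace -/
theorem solve_core (h2 : (2 : A) = 0) (g P : SL2 A)
    (htr : (g * P) 0 0 + (g * P) 1 1 = P 0 0 + P 1 1) (B : SL2 A) (x y : A)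
    (hB : (B : Matrix (Fin 2) (Fin 2) A) =
      ((g * P : SL2 A) + (P⁻¹ : SL2 A) : Matrix (Fin 2) (Fin 2) A) *
        (x • (1 : Matrix (Fin 2) (Fin 2) A) + y • (P : Matrix (Fin 2) (Fin 2) A))) :
    ⁅P, B⁆ * g = 1 := by
  have hQ := det_eq (g * P)
  have hP := det_eq P
  obtain ⟨Q, hQe⟩ : ∃ Q : SL2 A, Q = g * P := ⟨_, rfl⟩
  rw [← hQe] at htr hQ hB
  have key : ((Q : Matrix (Fin 2) (Fin 2) A) + (P⁻¹ : SL2 A)) * (P : Matrix (Fin 2) (Fin 2) A) =
      (Q : Matrix (Fin 2) (Fin 2) A) *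
        ((Q : Matrix (Fin 2) (Fin 2) A) + ((P⁻¹ : SL2 A) : Matrix (Fin 2) (Fin 2) A)) := by
    rw [inv_eq]
    ext i j
    fin_cases i <;> fin_cases j
    · simp [Matrix.mul_apply, Fin.sum_univ_two]
      linear_combination (-Q 0 0) * htr + hP + hQ - h2 * Q 0 0 * Q 1 1 +
        h2 * Q 0 0 * P 0 0 + h2 * (1 - Q 0 0 * P 1 1 - Q 0 0 * P 0 0 + Q 0 0 * Q 1 1 + Q 0 1 * P 1 0)
    · simp [Matrix.mul_apply, Fin.sum_univ_two]
      linear_combination (-Q 0 1) * htr + h2 * Q 0 0 * P 0 1 + h2 * Q 0 1 * P 1 1 -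
        h2 * Q 0 1 * P 0 0 - h2 * P 1 1 * Q 0 1
    · simp [Matrix.mul_apply, Fin.sum_univ_two]
      linear_combination (-Q 1 0) * htr + h2 * Q 1 0 * P 0 0 +
        h2 * (- Q 1 0 * P 0 0 - Q 1 0 * P 1 1 + P 1 0 * Q 1 1)
    · simp [Matrix.mul_apply, Fin.sum_univ_two]
      linear_combination (-Q 1 1) * htr + hP + hQ + h2 * (1 + Q 1 0 * P 0 1 - Q 1 1 * P 0 0)
  have hBP : B * P = Q * B := by
    apply Subtype.ext
    change (B : Matrix (Fin 2) (Fin 2) A) * (P : Matrix (Fin 2) (Fin 2) A) =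
      (Q : Matrix (Fin 2) (Fin 2) A) * (B : Matrix (Fin 2) (Fin 2) A)
    rw [hB]
    have h3 : (x • (1 : Matrix (Fin 2) (Fin 2) A) + y • (P : Matrix (Fin 2) (Fin 2) A)) *
        (P : Matrix (Fin 2) (Fin 2) A) = (P : Matrix (Fin 2) (Fin 2) A) *
        (x • (1 : Matrix (Fin 2) (Fin 2) A) + y • (P : Matrix (Fin 2) (Fin 2) A)) := by
      rw [add_mul, mul_add, smul_mul_assoc, one_mul, mul_smul_comm, mul_one, smul_mul_assoc,
        mul_smul_comm]
    rw [Matrix.mul_assoc, h3, ← Matrix.mul_assoc, key, Matrix.mul_assoc]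
  have h4 : B * P⁻¹ * B⁻¹ = Q⁻¹ := by
    rw [eq_comm, inv_eq_iff_mul_eq_one]
    have h5 : Q = B * P * B⁻¹ := by rw [hBP]; group
    rw [h5]
    group
  rw [commutatorElement_def]
  have h6 : P * B * P⁻¹ * B⁻¹ = P * (B * P⁻¹ * B⁻¹) := by group
  rw [h6, h4, hQe]
  group

end Pool.Agent.SuDivQ
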