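import Pool.Agent.Lib.MP_305fdd_al.Fr.N.H.Ser

/-!
# MP_305fdd_al, surface groups, block DIV: transport of representations over power series rings

`transport`: for groups `Λ`, `G` with naturally the same homomorphisms to finite groups every
representation `u : G → SL₂(F⟦ι⟧)`, `F` a finite field, gives a representation of `Λ` with the same
image modulo every power of the maximal ideal.
-/

set_option autoImplicit false

namespace Pool.Agent.SuDivQ

open Finsupp Matrix FrH Pool.Agent.Lib.MP_305fdd_al Pool.Agent.Lib.MP_305fdd_al.LW

theorem transport {G Λ : Type} [Group G] [Group Λ] (Φ : NatBij Λ G) (ι : Type) [Finite ι]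
    (F : Type) [Field F] [Finite F] (u : G →* SL2 (MvPowerSeries ι F)) :
    ∃ ρ : Λ →* SL2 (MvPowerSeries ι F), ∀ j,
      ((smap (tau ι F j)).comp ρ).range = ((smap (tau ι F j)).comp u).range := by
  classical
  have hfin : ∀ j, Finite (TR ι F j) := finite_TR ι F
  let r' : ∀ j, G →* SL2 (TR ι F j) := fun j => (smap (tau ι F j)).comp u
  let rj : ∀ j, Λ →* SL2 (TR ι F j) := fun j => Φ.symm.toFun _ (r' j)
  have hcompat' : ∀ {i j : ℕ} (h : i ≤ j),
      (smap (fac ι F h)).comp (r' j) = r' i := by
    intro i j h
    refine MonoidHom.ext fun x => Matrix.SpecialLinearGroup.ext _ _ fun a b => ?_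
    change fac ι F h (tau ι F j (u x a b)) = tau ι F i (u x a b)
    rw [← RingHom.comp_apply, fac_tau]
  have hcompat : ∀ {i j : ℕ} (h : i ≤ j),
      (smap (fac ι F h)).comp (rj j) = rj i := by
    intro i j h
    change _ = Φ.symm.toFun _ (r' i)
    rw [← hcompat' h, Φ.symm.nat]
  have hlim : ∀ (x : Λ) (a b : Fin 2), ∃ p : MvPowerSeries ι F, ∀ j, tau ι F j p =
      rj j x a b := by
    intro x a b
    refine exists_lim ι F _ fun {i j} h => ?_
    rw [← map_ent, ← hcompat h]
    rfl
  choose p hp using hlim
  let ρ : Λ →* SL2 (MvPowerSeries ι F) :=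
    { toFun := fun x => ⟨Matrix.of fun a b => p x a b, by
        rw [Matrix.det_fin_two]
        refine tau_sep ι F fun j => ?_
        rw [map_sub, map_mul, map_mul, map_one]
        simp only [Matrix.of_apply, hp]
        exact det_eq _⟩
      map_one' := by
        refine Matrix.SpecialLinearGroup.ext _ _ fun a b => ?_
        refine tau_sep ι F fun j => ?_
        change tau ι F j (p 1 a b) = _
        rw [hp, map_one, one_ent, one_ent]
        split_ifs
        · rw [map_one]
        · rw [map_zero]
      map_mul' := by
        intro x y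
        refine Matrix.SpecialLinearGroup.ext _ _ fun a b => ?_
        refine tau_sep ι F fun j => ?_
        change tau ι F j (p (x * y) a b) = _
        rw [hp, map_mul, mul_ent, mul_ent, map_add, map_mul, map_mul]
        change _ = tau ι F j (p x a 0) * tau ι F j (p y 0 b) +
          tau ι F j (p x a 1) * tau ι F j (p y 1 b)
        rw [hp, hp, hp, hp] }
  refine ⟨ρ, fun j => ?_⟩
  have h1 : (smap (tau ι F j)).comp ρ = rj j := by
    refine MonoidHom.ext fun x => Matrix.SpecialLinearGroup.ext _ _ fun a b => ?_
    exact hp x a b j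
  rw [h1]
  exact Φ.symm.range_eq (r' j)

end Pool.Agent.SuDivQ
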